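import Pool.Agent.UQSh.Inf

/-! # An infinite planar quadrangulation with connective constant 2 (MP_0dee97_pr; helper42) -/

set_option autoImplicit false

noncomputable section

namespace Pool.Agent.UQSh

open Pool.Agent.UQC

/-- The darts of a self-avoiding walk. -/
theorem saw_get (l : List ℕ) (h : IsSAW Ms 0 l) : ∀ (k : ℕ) (hk : k < l.length),
    (k = 0 ∧ l[k] = 0) ∨ (0 < k ∧ (l[k] = 4 * (k - 1) + 2 ∨ l[k] = 4 * (k - 1) + 3)) := by
  intro k
  induction k with
  | zero =>
    intro hk
    left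
    refine ⟨rfl, ?_⟩
    have h1 := h.1 l[0] (by rw [List.head?_eq_getElem?]; exact List.getElem?_eq_getElem hk)
    have h2 := (sci_iff _ _).1 h1
    have h3 := vli_spec l[0]
    have h4 := vli_spec 0
    omega
  | succ k ih =>
    intro hk
    right
    refine ⟨Nat.succ_pos k, ?_⟩
    have h1 := ih (by omega)
    have h2 : Ms.nx.SameCycle (Ms.iv (l[k]'(by omega))) l[k + 1] := by
      have h3 := h.2.1
      rw [List.isChain_iff_getElem] at h3
      exact h3 k (by omega)
    have h3 := (sci_iff _ _).1 h2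
    rw [iv_s] at h3
    have h4 := h.2.2 k (k + 1) (by omega) hk (by omega)
    rw [sci_iff, iv_s] at h4
    have a1 := vI_spec (l[k]'(by omega))
    have a2 := vI_spec l[k + 1]
    have b1 := vli_spec (l[k]'(by omega))
    have b2 := vli_spec l[k + 1]
    have b3 := vli_spec (vI (l[k]'(by omega)))
    have b4 := vli_spec (vI l[k + 1])
    generalize l[k]'(by omega) = x at *
    generalize l[k + 1] = y at *
    omega

theorem saws_le (n : ℕ) : saws Ms 0 n ≤ 2 ^ n := by
  have hc : Nat.card (Fin n → Bool) = 2 ^ n := by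
    rw [Nat.card_eq_fintype_card]
    simp
  rw [← hc]
  unfold saws
  refine Nat.card_le_card_of_injective
    (fun l : {l : List ℕ // l.length = n ∧ IsSAW Ms 0 l} => fun i : Fin n =>
      decide ((l.1[i.1]'(by rw [l.2.1]; exact i.2)) % 2 = 1)) ?_
  rintro ⟨l, hl, h⟩ ⟨l', hl', h'⟩ heq
  refine Subtype.ext ?_
  show l = l'
  refine List.ext_getElem (hl.trans hl'.symm) fun k hk hk' => ?_
  have e1 := congrFun heq ⟨k, lt_of_lt_of_eq hk hl⟩
  have e2 : (l[k] % 2 = 1) ↔ (l'[k] % 2 = 1) := by
    have := decide_eq_decide.1 e1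
    exact this
  have a1 := saw_get l h k hk
  have a2 := saw_get l' h' k hk'
  generalize l[k] = x at *
  generalize l'[k] = y at *
  omega

theorem mu_le : mu Ms 0 ≤ 2 := by
  unfold mu
  refine Filter.limsup_le_of_le (by isBoundedDefault) ?_
  filter_upwards [Filter.eventually_ge_atTop 1] with n hn
  have h1 : (saws Ms 0 n : ENNReal) ≤ (2 : ENNReal) ^ (n : ℝ) := by
    rw [ENNReal.rpow_natCast]
    exact_mod_cast saws_le n
  calc (saws Ms 0 n : ENNReal) ^ (1 / (n : ℝ)) ≤ ((2 : ENNReal) ^ (n : ℝ)) ^ (1 / (n : ℝ)) :=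
        ENNReal.rpow_le_rpow h1 (by positivity)
    _ = 2 := by
        rw [← ENNReal.rpow_mul]
        have : (n : ℝ) * (1 / (n : ℝ)) = 1 := by
          have : (n : ℝ) ≠ 0 := by positivity
          field_simp
        rw [this, ENNReal.rpow_one]

/-- The bound `2` for the connective constants of infinite planar quadrangulations is attained. -/
theorem sharp (hmu : ∀ (D : Type) (M : CMap D) (ρ : D), IsInfQuad M ρ → 2 ≤ mu M ρ) :
    ∃ (D : Type) (M : CMap D) (ρ : D), IsInfQuad M ρ ∧ mu M ρ = 2 :=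
  ⟨ℕ, Ms, 0, isInf, le_antisymm mu_le (hmu ℕ Ms 0 isInf)⟩

end Pool.Agent.UQSh
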