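import Pool.Agent.UQC.Defs

/-!
# The doubled path (MP_0dee97_pr; helper42, for the campaign UQC of helper63)

The one sided doubled path: vertices `v_0, v_1, v_2, …`, one edge between `v_0` and `v_1`, two edges between `v_i` and
`v_(i+1)` for `i ≥ 1`.  Darts: `0` at `v_0`; `1, 2, 3` at `v_1`; `4 i, …, 4 i + 3` at `v_(i+1)` for `i ≥ 1`.
The finite approximation `Mf n` has the darts `0, …, 4 n + 3`, the vertices `v_0, …, v_(n+2)` and a single edge between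
`v_(n+1)` and `v_(n+2)`.
-/

set_option autoImplicit false

noncomputable section

namespace Pool.Agent.UQSh

open Pool.Agent.UQC

/-- rotation -/
def nI (d : ℕ) : ℕ := if d = 0 then 0 else if d = 3 then 1 else if d % 4 = 3 then d - 3 else d + 1

/-- inverse rotation -/
def nI' (d : ℕ) : ℕ := if d = 0 then 0 else if d = 1 then 3 else if d % 4 = 0 then d + 3 else d - 1

/-- reversal -/
def vI (d : ℕ) : ℕ := if d = 0 then 1 else if d = 1 then 0 else if 2 ≤ d % 4 then d + 2 else d - 2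

theorem nI_spec (d : ℕ) : (d = 0 ∧ nI d = 0) ∨ (d = 3 ∧ nI d = 1) ∨ (3 < d ∧ d % 4 = 3 ∧ nI d = d - 3) ∨
    (0 < d ∧ d % 4 ≠ 3 ∧ nI d = d + 1) := by
  unfold nI
  split_ifs <;> omega

theorem nI'_spec (d : ℕ) : (d = 0 ∧ nI' d = 0) ∨ (d = 1 ∧ nI' d = 3) ∨ (0 < d ∧ d % 4 = 0 ∧ nI' d = d + 3) ∨
    (1 < d ∧ d % 4 ≠ 0 ∧ nI' d = d - 1) := by
  unfold nI'
  split_ifs <;> omega

theorem vI_spec (d : ℕ) : (d = 0 ∧ vI d = 1) ∨ (d = 1 ∧ vI d = 0) ∨ (1 < d ∧ 2 ≤ d % 4 ∧ vI d = d + 2) ∨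
    (1 < d ∧ d % 4 < 2 ∧ vI d = d - 2) := by
  unfold vI
  split_ifs <;> omega

theorem nI_nI' (d : ℕ) : nI (nI' d) = d := by
  have h1 := nI'_spec d
  have h2 := nI_spec (nI' d)
  omega

theorem nI'_nI (d : ℕ) : nI' (nI d) = d := by
  have h1 := nI_spec d
  have h2 := nI'_spec (nI d)
  omega

theorem vI_vI (d : ℕ) : vI (vI d) = d := by
  have h1 := vI_spec d
  have h2 := vI_spec (vI d)
  omega

theorem vI_ne (d : ℕ) : vI d ≠ d := by
  have h1 := vI_spec d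
  omega

/-- The one sided doubled path. -/
def Ms : CMap ℕ where
  nx := ⟨nI, nI', nI'_nI, nI_nI'⟩
  iv := ⟨vI, vI, vI_vI, vI_vI⟩
  iv_iv := vI_vI
  iv_ne := vI_ne

/-- rotation, finite version -/
def nF (n d : ℕ) : ℕ := if d = 4 * n + 1 then 4 * n + 3 else if d = 4 * n + 2 then 4 * n + 2 else nI d

/-- inverse rotation, finite version -/
def nF' (n d : ℕ) : ℕ := if d = 4 * n + 3 then 4 * n + 1 else if d = 4 * n + 2 then 4 * n + 2 else nI' d

/-- reversal, finite version -/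
def vF (n d : ℕ) : ℕ := if d = 4 * n + 2 then 4 * n + 3 else if d = 4 * n + 3 then 4 * n + 2 else vI d

theorem nF_spec (n d : ℕ) : (d = 4 * n + 1 ∧ nF n d = 4 * n + 3) ∨ (d = 4 * n + 2 ∧ nF n d = 4 * n + 2) ∨
    (d ≠ 4 * n + 1 ∧ d ≠ 4 * n + 2 ∧ nF n d = nI d) := by
  unfold nF
  split_ifs <;> omega

theorem nF'_spec (n d : ℕ) : (d = 4 * n + 3 ∧ nF' n d = 4 * n + 1) ∨ (d = 4 * n + 2 ∧ nF' n d = 4 * n + 2) ∨
    (d ≠ 4 * n + 3 ∧ d ≠ 4 * n + 2 ∧ nF' n d = nI' d) := by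
  unfold nF'
  split_ifs <;> omega

theorem vF_spec (n d : ℕ) : (d = 4 * n + 2 ∧ vF n d = 4 * n + 3) ∨ (d = 4 * n + 3 ∧ vF n d = 4 * n + 2) ∨
    (d ≠ 4 * n + 2 ∧ d ≠ 4 * n + 3 ∧ vF n d = vI d) := by
  unfold vF
  split_ifs <;> omega

theorem nF_lt (n d : ℕ) (h : d < 4 * n + 4) : nF n d < 4 * n + 4 := by
  have h1 := nF_spec n d
  have h2 := nI_spec d
  omega

theorem nF'_lt (n d : ℕ) (h : d < 4 * n + 4) : nF' n d < 4 * n + 4 := by
  have h1 := nF'_spec n d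
  have h2 := nI'_spec d
  omega

theorem vF_lt (n d : ℕ) (h : d < 4 * n + 4) : vF n d < 4 * n + 4 := by
  have h1 := vF_spec n d
  have h2 := vI_spec d
  omega

theorem nF_nF' (n d : ℕ) (h : d < 4 * n + 4) : nF n (nF' n d) = d := by
  have h1 := nF'_spec n d
  have h2 := nI'_spec d
  have h3 := nF_spec n (nF' n d)
  have h4 := nI_spec (nF' n d)
  omega

theorem nF'_nF (n d : ℕ) (h : d < 4 * n + 4) : nF' n (nF n d) = d := by
  have h1 := nF_spec n d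
  have h2 := nI_spec d
  have h3 := nF'_spec n (nF n d)
  have h4 := nI'_spec (nF n d)
  omega

theorem vF_vF (n d : ℕ) (h : d < 4 * n + 4) : vF n (vF n d) = d := by
  have h1 := vF_spec n d
  have h2 := vI_spec d
  have h3 := vF_spec n (vF n d)
  have h4 := vI_spec (vF n d)
  omega

theorem vF_ne (n d : ℕ) (h : d < 4 * n + 4) : vF n d ≠ d := by
  have h1 := vF_spec n d
  have h2 := vI_spec d
  omega

/-- The finite doubled path. -/
def Mf (n : ℕ) : CMap (Fin (4 * n + 4)) where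
  nx := ⟨fun d => ⟨nF n d, nF_lt n d d.2⟩, fun d => ⟨nF' n d, nF'_lt n d d.2⟩,
    fun d => Fin.ext (nF'_nF n d d.2), fun d => Fin.ext (nF_nF' n d d.2)⟩
  iv := ⟨fun d => ⟨vF n d, vF_lt n d d.2⟩, fun d => ⟨vF n d, vF_lt n d d.2⟩,
    fun d => Fin.ext (vF_vF n d d.2), fun d => Fin.ext (vF_vF n d d.2)⟩
  iv_iv := fun d => Fin.ext (vF_vF n d d.2)
  iv_ne := fun d h => vF_ne n d d.2 (congrArg Fin.val h)

end Pool.Agent.UQSh
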