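import Pool.Agent.UQSh.Quad
import Pool.Agent.UQC.Ncf

/-! # The finite doubled path: vertices, connectedness, Euler (MP_0dee97_pr; helper42) -/

set_option autoImplicit false

noncomputable section

namespace Pool.Agent.UQSh

open Pool.Agent.UQC

/-- the vertex of a dart -/
def vl (n d : ℕ) : ℕ := if d = 0 then 0 else if d = 4 * n + 2 then n + 2 else d / 4 + 1

/-- the first dart of the vertex of a dart -/
def bs (n d : ℕ) : ℕ := if d = 0 then 0 else if d = 4 * n + 2 then 4 * n + 2 else if d < 4 then 1 else 4 * (d / 4)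

theorem vl_spec (n d : ℕ) : (d = 0 ∧ vl n d = 0) ∨ (d = 4 * n + 2 ∧ vl n d = n + 2) ∨
    (0 < d ∧ d ≠ 4 * n + 2 ∧ vl n d = d / 4 + 1) := by
  unfold vl
  split_ifs <;> omega

theorem bs_spec (n d : ℕ) : (d = 0 ∧ bs n d = 0) ∨ (d = 4 * n + 2 ∧ bs n d = 4 * n + 2) ∨
    (0 < d ∧ d < 4 ∧ d ≠ 4 * n + 2 ∧ bs n d = 1) ∨ (4 ≤ d ∧ d ≠ 4 * n + 2 ∧ bs n d = 4 * (d / 4)) := by
  unfold bs
  split_ifs <;> omega

theorem vl_nF (n d : ℕ) (h : d < 4 * n + 4) : vl n (nF n d) = vl n d := by
  have h1 := nF_spec n d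
  have h2 := nI_spec d
  have h3 := vl_spec n d
  have h4 := vl_spec n (nF n d)
  omega

theorem bs_of_vl (n d e : ℕ) (hd : d < 4 * n + 4) (he : e < 4 * n + 4) (h : vl n d = vl n e) : bs n d = bs n e := by
  have h1 := vl_spec n d
  have h2 := vl_spec n e
  have h3 := bs_spec n d
  have h4 := bs_spec n e
  omega

/-- A dart which is not the first one of its vertex comes after a smaller one. -/
theorem bs_step (n d : ℕ) (hd : d < 4 * n + 4) (h : bs n d ≠ d) :
    ∃ e, e < d ∧ nF n e = d ∧ bs n e = bs n d := by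
  have h3 := bs_spec n d
  by_cases h1 : d = 4 * n + 3
  · refine ⟨4 * n + 1, by omega, ?_, ?_⟩
    · have := nF_spec n (4 * n + 1)
      omega
    · have h4 := bs_spec n (4 * n + 1)
      omega
  · refine ⟨d - 1, by omega, ?_, ?_⟩
    · have h5 := nF_spec n (d - 1)
      have h6 := nI_spec (d - 1)
      omega
    · have h4 := bs_spec n (d - 1)
      omega

theorem inv_zpow {D : Type} (f : Equiv.Perm D) (v : D → ℕ) (h : ∀ x, v (f x) = v x) (x y : D)
    (hxy : f.SameCycle x y) : v x = v y := by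
  have h1 : ∀ (k : ℕ) (x : D), v ((f ^ k) x) = v x := by
    intro k
    induction k with
    | zero => intro x; rfl
    | succ k ih =>
      intro x
      rw [pow_succ', Equiv.Perm.mul_apply, h, ih]
  obtain ⟨i, hi⟩ := hxy
  rcases Int.eq_nat_or_neg i with ⟨k, hk | hk⟩
  · subst hk
    rw [← hi, zpow_natCast, h1]
  · subst hk
    have h2 : x = (f ^ k) y := by
      rw [← hi, zpow_neg, zpow_natCast]
      simp
    rw [h2, h1]

theorem sc_step (n : ℕ) (x y : Fin (4 * n + 4)) (h : nF n x = y) : (Mf n).nx.SameCycle x y := by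
  have h1 : (Mf n).nx x = y := Fin.ext h
  rw [← h1]
  exact (Equiv.Perm.SameCycle.refl _ _).apply_right

theorem bs_lt (n d : ℕ) (hd : d < 4 * n + 4) : bs n d < 4 * n + 4 := by
  have := bs_spec n d
  omega

theorem sc_bs (n : ℕ) : ∀ (d : ℕ) (hd : d < 4 * n + 4),
    (Mf n).nx.SameCycle ⟨bs n d, bs_lt n d hd⟩ ⟨d, hd⟩ := by
  intro d
  induction d using Nat.strong_induction_on with
  | _ d ih =>
    intro hd
    by_cases h : bs n d = d
    · have : (⟨bs n d, bs_lt n d hd⟩ : Fin (4 * n + 4)) = ⟨d, hd⟩ := Fin.ext h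
      rw [this]
    · obtain ⟨e, he, h1, h2⟩ := bs_step n d hd h
      have h3 := ih e he (by omega)
      have h4 : (⟨bs n e, bs_lt n e (by omega)⟩ : Fin (4 * n + 4)) = ⟨bs n d, bs_lt n d hd⟩ := Fin.ext h2
      rw [h4] at h3
      exact h3.trans (sc_step n _ _ h1)

theorem sc_iff (n : ℕ) (x y : Fin (4 * n + 4)) : (Mf n).nx.SameCycle x y ↔ vl n x = vl n y := by
  constructor
  · intro h
    exact inv_zpow (Mf n).nx (fun x => vl n x) (fun x => vl_nF n x x.2) x y h
  · intro h
    have h1 := sc_bs n x x.2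
    have h2 := sc_bs n y y.2
    have h3 : (⟨bs n x, bs_lt n x x.2⟩ : Fin (4 * n + 4)) = ⟨bs n y, bs_lt n y y.2⟩ :=
      Fin.ext (bs_of_vl n x y x.2 y.2 h)
    rw [h3] at h1
    exact h1.symm.trans h2

theorem vl_lt (n d : ℕ) (hd : d < 4 * n + 4) : vl n d < n + 3 := by
  have := vl_spec n d
  omega

theorem nc_nx (n : ℕ) : nc (Mf n).nx = n + 3 := by
  unfold nc
  let s := Equiv.Perm.SameCycle.setoid (Mf n).nx
  let g : Quotient s → Fin (n + 3) := Quotient.lift (fun x : Fin (4 * n + 4) => (⟨vl n x, vl_lt n x x.2⟩ : Fin (n + 3)))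
    (fun x y h => Fin.ext ((sc_iff n x y).1 h))
  have hg : Function.Bijective g := by
    constructor
    · intro p q h
      obtain ⟨x, rfl⟩ := Quotient.exists_rep p
      obtain ⟨y, rfl⟩ := Quotient.exists_rep q
      exact Quotient.sound ((sc_iff n x y).2 (congrArg Fin.val h))
    · intro k
      by_cases h0 : k.1 = 0
      · refine ⟨Quotient.mk s ⟨0, by omega⟩, Fin.ext ?_⟩
        show vl n 0 = k
        have := vl_spec n 0
        omega
      · by_cases h1 : k.1 = n + 2
        · refine ⟨Quotient.mk s ⟨4 * n + 2, by omega⟩, Fin.ext ?_⟩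
          show vl n (4 * n + 2) = k
          have := vl_spec n (4 * n + 2)
          omega
        · have hk := k.2
          refine ⟨Quotient.mk s ⟨4 * (k.1 - 1) + 1, by omega⟩, Fin.ext ?_⟩
          show vl n (4 * (k.1 - 1) + 1) = k
          have := vl_spec n (4 * (k.1 - 1) + 1)
          omega
  rw [Nat.card_eq_of_bijective g hg, Nat.card_fin]

theorem conn (n : ℕ) : (Mf n).Conn := by
  have key : ∀ (d : ℕ) (hd : d < 4 * n + 4), Relation.EqvGen
      (fun x y => y = (Mf n).nx x ∨ y = (Mf n).iv x) (⟨0, by omega⟩ : Fin (4 * n + 4)) ⟨d, hd⟩ := by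
    intro d
    induction d using Nat.strong_induction_on with
    | _ d ih =>
      intro hd
      have hstep : ∀ (e : ℕ) (he : e < 4 * n + 4), e < d → (nF n e = d ∨ vF n e = d) →
          Relation.EqvGen (fun x y => y = (Mf n).nx x ∨ y = (Mf n).iv x)
            (⟨0, by omega⟩ : Fin (4 * n + 4)) ⟨d, hd⟩ := by
        intro e he hed h
        refine Relation.EqvGen.trans _ _ _ (ih e hed he) (Relation.EqvGen.rel _ _ ?_)
        rcases h with h | h
        · exact Or.inl (Fin.ext h.symm)
        · exact Or.inr (Fin.ext h.symm)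
      by_cases h0 : d = 0
      · subst h0
        exact Relation.EqvGen.refl _
      by_cases h2 : d = 4 * n + 2
      · subst h2
        have a1 : nF n (4 * n + 1) = 4 * n + 3 := by
          have := nF_spec n (4 * n + 1)
          omega
        have a2 : vF n (4 * n + 3) = 4 * n + 2 := by
          have := vF_spec n (4 * n + 3)
          omega
        have b1 := ih (4 * n + 1) (by omega) (by omega)
        refine Relation.EqvGen.trans _ _ _ b1 (Relation.EqvGen.trans _ ⟨4 * n + 3, by omega⟩ _ ?_ ?_)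
        · exact Relation.EqvGen.rel _ _ (Or.inl (Fin.ext a1.symm))
        · exact Relation.EqvGen.rel _ _ (Or.inr (Fin.ext a2.symm))
      by_cases h : bs n d = d
      · have hb := bs_spec n d
        by_cases h1 : d = 1
        · subst h1
          refine hstep 0 (by omega) (by omega) (Or.inr ?_)
          have a1 := vF_spec n 0
          have a2 := vI_spec 0
          omega
        · refine hstep (d - 2) (by omega) (by omega) (Or.inr ?_)
          have a1 := vF_spec n (d - 2)
          have a2 := vI_spec (d - 2)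
          omega
      · obtain ⟨e, he, h1, _⟩ := bs_step n d hd h
        exact hstep e (by omega) he (Or.inl h1)
  intro x y
  exact Relation.EqvGen.trans _ _ _ (Relation.EqvGen.symm _ _ (key x x.2)) (key y y.2)

theorem isQuad (n : ℕ) (hn : 1 < n) : IsQuad (Mf n) := by
  have h4 : ∀ d, (Mf n).fc ((Mf n).fc ((Mf n).fc ((Mf n).fc d))) = d := by
    intro d
    obtain ⟨a, b, c, h1, h2, h3, h4, _⟩ := fF_orb n d hn d.2
    refine Fin.ext ?_
    rw [fc_val, fc_val, fc_val, fc_val, h1, h2, h3, h4]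
  have h2 : ∀ d, (Mf n).fc ((Mf n).fc d) ≠ d := by
    intro d h
    obtain ⟨a, b, c, h1, h2, h3, h4, h5⟩ := fF_orb n d hn d.2
    have h6 := congrArg Fin.val h
    rw [fc_val, fc_val, h1, h2] at h6
    exact h5 h6
  refine ⟨conn n, h4, h2, ?_⟩
  have e1 := (thm_Ncf (Fin (4 * n + 4)) (Mf n).fc).2 h4 h2
  have e2 := (thm_Ncf (Fin (4 * n + 4)) (Mf n).iv).1 (Mf n).iv_iv (Mf n).iv_ne
  rw [Nat.card_fin] at e1 e2
  rw [nc_nx]
  omega

end Pool.Agent.UQSh
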