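import Pool.Agent.UQSh.Eul

/-! # The doubled path is an infinite planar quadrangulation (MP_0dee97_pr; helper42) -/

set_option autoImplicit false

noncomputable section

namespace Pool.Agent.UQSh

open Pool.Agent.UQC

/-- the vertex of a dart of the infinite path -/
def vli (d : ℕ) : ℕ := if d = 0 then 0 else d / 4 + 1

/-- the first dart of the vertex -/
def bsi (d : ℕ) : ℕ := if d = 0 then 0 else if d < 4 then 1 else 4 * (d / 4)

theorem vli_spec (d : ℕ) : (d = 0 ∧ vli d = 0) ∨ (0 < d ∧ vli d = d / 4 + 1) := by
  unfold vli
  split_ifs <;> omega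

theorem bsi_spec (d : ℕ) : (d = 0 ∧ bsi d = 0) ∨ (0 < d ∧ d < 4 ∧ bsi d = 1) ∨ (4 ≤ d ∧ bsi d = 4 * (d / 4)) := by
  unfold bsi
  split_ifs <;> omega

theorem vli_nI (d : ℕ) : vli (nI d) = vli d := by
  have h2 := nI_spec d
  have h3 := vli_spec d
  have h4 := vli_spec (nI d)
  omega

theorem nx_s (d : ℕ) : Ms.nx d = nI d := rfl

theorem iv_s (d : ℕ) : Ms.iv d = vI d := rfl

theorem sci_bs : ∀ d : ℕ, Ms.nx.SameCycle (bsi d) d := by
  intro d
  induction d using Nat.strong_induction_on with
  | _ d ih =>
    have hb := bsi_spec d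
    by_cases h : bsi d = d
    · rw [h]
    · have h1 : nI (d - 1) = d := by
        have := nI_spec (d - 1)
        omega
      have h2 : bsi (d - 1) = bsi d := by
        have := bsi_spec (d - 1)
        omega
      have h3 := ih (d - 1) (by omega)
      rw [h2] at h3
      have h4 : Ms.nx (d - 1) = d := h1
      have h5 : Ms.nx.SameCycle (bsi d) (Ms.nx (d - 1)) := h3.apply_right
      rwa [h4] at h5

theorem sci_iff (x y : ℕ) : Ms.nx.SameCycle x y ↔ vli x = vli y := by
  constructor
  · intro h
    exact inv_zpow Ms.nx vli vli_nI x y h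
  · intro h
    have h1 := sci_bs x
    have h2 := sci_bs y
    have h3 : bsi x = bsi y := by
      have a1 := vli_spec x
      have a2 := vli_spec y
      have a3 := bsi_spec x
      have a4 := bsi_spec y
      omega
    rw [h3] at h1
    exact h1.symm.trans h2

theorem reach_s (r : ℕ) : reach Ms 0 r = {d | vli d ≤ r} := by
  induction r with
  | zero =>
    ext d
    show Ms.nx.SameCycle 0 d ↔ vli d ≤ 0
    rw [sci_iff]
    have h1 := vli_spec 0
    omega
  | succ r ih =>
    ext d
    constructor
    · rintro ⟨d', hd', h⟩
      rw [ih] at hd'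
      have h0 : vli d' ≤ r := hd'
      show vli d ≤ r + 1
      rcases h with h | h
      · have := (sci_iff _ _).1 h
        omega
      · have h1 := (sci_iff _ _).1 h
        rw [iv_s] at h1
        have h2 := vI_spec d'
        have h3 := vli_spec d'
        have h4 := vli_spec (vI d')
        omega
    · intro h
      have h0 : vli d ≤ r + 1 := h
      by_cases h1 : vli d ≤ r
      · refine ⟨d, ?_, Or.inl (Equiv.Perm.SameCycle.refl _ _)⟩
        rw [ih]
        exact h1
      · by_cases hr : r = 0
        · subst hr
          refine ⟨0, ?_, Or.inr ?_⟩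
          · rw [ih]
            show vli 0 ≤ 0
            have := vli_spec 0
            omega
          · rw [sci_iff, iv_s]
            have a1 := vI_spec 0
            have a2 := vli_spec (vI 0)
            omega
        · refine ⟨4 * (r - 1) + 3, ?_, Or.inr ?_⟩
          · rw [ih]
            show vli (4 * (r - 1) + 3) ≤ r
            have := vli_spec (4 * (r - 1) + 3)
            omega
          · rw [sci_iff, iv_s]
            have a1 := vI_spec (4 * (r - 1) + 3)
            have a2 := vli_spec (vI (4 * (r - 1) + 3))
            omega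

theorem reach_f (n r : ℕ) : reach (Mf n) 0 r = {d : Fin (4 * n + 4) | vl n d ≤ r} := by
  induction r with
  | zero =>
    ext d
    show (Mf n).nx.SameCycle 0 d ↔ vl n d ≤ 0
    rw [sc_iff]
    have h1 := vl_spec n 0
    have h2 : ((0 : Fin (4 * n + 4)) : ℕ) = 0 := rfl
    rw [h2]
    omega
  | succ r ih =>
    ext d
    constructor
    · rintro ⟨d', hd', h⟩
      rw [ih] at hd'
      have h0 : vl n d' ≤ r := hd'
      show vl n d ≤ r + 1
      rcases h with h | h
      · have := (sc_iff _ _ _).1 h
        omega
      · have h1 : vl n (vF n d') = vl n d := (sc_iff _ _ _).1 h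
        have h2 := vI_spec d'
        have h5 := vF_spec n d'
        have h3 := vl_spec n d'
        have h4 := vl_spec n (vF n d')
        have h6 := d'.2
        omega
    · intro h
      have h0 : vl n d ≤ r + 1 := h
      by_cases h1 : vl n d ≤ r
      · refine ⟨d, ?_, Or.inl (Equiv.Perm.SameCycle.refl _ _)⟩
        rw [ih]
        exact h1
      · have hd := vl_lt n d d.2
        by_cases hr : r = 0
        · subst hr
          refine ⟨0, ?_, Or.inr ?_⟩
          · rw [ih]
            show vl n 0 ≤ 0
            have := vl_spec n 0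
            omega
          · rw [sc_iff]
            show vl n (vF n 0) = vl n d
            have a0 := vF_spec n 0
            have a1 := vI_spec 0
            have a2 := vl_spec n (vF n 0)
            omega
        · refine ⟨⟨4 * (r - 1) + 3, by omega⟩, ?_, Or.inr ?_⟩
          · rw [ih]
            show vl n (4 * (r - 1) + 3) ≤ r
            have := vl_spec n (4 * (r - 1) + 3)
            omega
          · rw [sc_iff]
            show vl n (vF n (4 * (r - 1) + 3)) = vl n d
            have a0 := vF_spec n (4 * (r - 1) + 3)
            have a1 := vI_spec (4 * (r - 1) + 3)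
            have a2 := vl_spec n (vF n (4 * (r - 1) + 3))
            omega

/-- the number of darts of the ball of radius `r` -/
def kk (r : ℕ) : ℕ := max (4 * r) 1

theorem kk_spec (r : ℕ) : (r = 0 ∧ kk r = 1) ∨ (0 < r ∧ kk r = 4 * r) := by
  unfold kk
  omega

theorem nI_kk (r d : ℕ) (h : d < kk r) : nI d < kk r := by
  have h1 := nI_spec d
  have h2 := kk_spec r
  omega

theorem nI'_kk (r d : ℕ) (h : d < kk r) : nI' d < kk r := by
  have h1 := nI'_spec d
  have h2 := kk_spec r
  omega

/-- The ball of radius `r`. -/
def pt (r : ℕ) : Pat where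
  k := kk r
  rt := ⟨0, by have := kk_spec r; omega⟩
  nx := ⟨fun i => ⟨nI i, nI_kk r i i.2⟩, fun i => ⟨nI' i, nI'_kk r i i.2⟩,
    fun i => Fin.ext (nI'_nI i), fun i => Fin.ext (nI_nI' i)⟩
  iv := fun i => if h : vI i < kk r then some ⟨vI i, h⟩ else none

theorem pt_iv (r : ℕ) (i j : Fin (pt r).k) : (pt r).iv i = some j ↔ vI i = j := by
  show (if h : vI i < kk r then some (⟨vI i, h⟩ : Fin (kk r)) else none) = some j ↔ vI i = j
  split_ifs with h
  · exact ⟨fun h' => congrArg Fin.val (Option.some.inj h'), fun h' => congrArg some (Fin.ext h')⟩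
  · constructor
    · intro h'
      exact absurd h' (by simp)
    · intro h'
      exact absurd (h' ▸ j.2) h

theorem match_s (r : ℕ) : Match r Ms 0 (pt r) := by
  refine ⟨fun i => i.1, fun i j h => Fin.ext h, ?_, rfl, fun i => rfl, fun i j => ?_⟩
  · rw [reach_s]
    ext d
    constructor
    · rintro ⟨i, rfl⟩
      show vli i.1 ≤ r
      have h1 : i.1 < kk r := i.2
      have h2 := kk_spec r
      have h3 := vli_spec i.1
      omega
    · intro h
      have h0 : vli d ≤ r := h
      have h2 := kk_spec r
      have h3 := vli_spec d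
      exact ⟨⟨d, show d < kk r by omega⟩, rfl⟩
  · rw [pt_iv]
    exact Iff.rfl

theorem match_f (r n : ℕ) (hr : r ≤ n) : Match r (Mf n) 0 (pt r) := by
  have hk := kk_spec r
  have hlt : ∀ i : Fin (pt r).k, i.1 < 4 * n + 4 := fun i => by
    have h1 : i.1 < kk r := i.2
    omega
  refine ⟨fun i => ⟨i.1, hlt i⟩, fun i j h => Fin.ext (by have := congrArg Fin.val h; exact this), ?_, rfl, fun i => ?_, fun i j => ?_⟩
  · rw [reach_f]
    ext d
    constructor
    · rintro ⟨i, rfl⟩
      show vl n i.1 ≤ r
      have h1 : i.1 < kk r := i.2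
      have h3 := vl_spec n i.1
      omega
    · intro h
      have h0 : vl n d ≤ r := h
      have h3 := vl_spec n d
      exact ⟨⟨d, show d.1 < kk r by omega⟩, rfl⟩
  · refine Fin.ext ?_
    show nI i.1 = nF n i.1
    have h1 : i.1 < kk r := i.2
    have h2 := nF_spec n i.1
    omega
  · rw [pt_iv]
    have h1 : i.1 < kk r := i.2
    have h2 := vF_spec n i.1
    constructor
    · intro h
      refine Fin.ext ?_
      show vF n i.1 = j.1
      omega
    · intro h
      have h3 : vF n i.1 = j.1 := congrArg Fin.val h
      omega

theorem isInf : IsInfQuad Ms 0 := by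
  refine ⟨inferInstance, ?_, ?_, ?_⟩
  · have key : ∀ d : ℕ, Relation.EqvGen (fun x y => y = Ms.nx x ∨ y = Ms.iv x) 0 d := by
      intro d
      induction d using Nat.strong_induction_on with
      | _ d ih =>
        by_cases h0 : d = 0
        · subst h0
          exact Relation.EqvGen.refl _
        by_cases h1 : d = 1
        · subst h1
          exact Relation.EqvGen.rel _ _ (Or.inr rfl)
        by_cases h2 : d % 4 = 0
        · refine Relation.EqvGen.trans _ _ _ (ih (d - 2) (by omega)) (Relation.EqvGen.rel _ _ (Or.inr ?_))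
          rw [iv_s]
          have := vI_spec (d - 2)
          omega
        · refine Relation.EqvGen.trans _ _ _ (ih (d - 1) (by omega)) (Relation.EqvGen.rel _ _ (Or.inl ?_))
          rw [nx_s]
          have := nI_spec (d - 1)
          omega
    intro x y
    exact Relation.EqvGen.trans _ _ _ (Relation.EqvGen.symm _ _ (key x)) (key y)
  · intro d
    refine (Set.finite_Iio (4 * vli d + 4)).subset fun d' h => ?_
    have h1 := (sci_iff _ _).1 h
    have h2 := vli_spec d'
    show d' < 4 * vli d + 4
    omega
  · intro r
    exact ⟨r + 2, Mf (r + 2), pt r, isQuad (r + 2) (by omega), match_s r, match_f r (r + 2) (by omega)⟩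

end Pool.Agent.UQSh
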