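import Pool.Agent.UQSh.Defs

/-! # The finite doubled path is a planar quadrangulation (MP_0dee97_pr; helper42) -/

set_option autoImplicit false

noncomputable section

namespace Pool.Agent.UQSh

open Pool.Agent.UQC

/-- the face permutation -/
def fF (n d : ℕ) : ℕ := nF n (vF n d)

theorem fF_a (n : ℕ) : fF n (4 * n + 3) = 4 * n + 2 := by
  have e : vF n (4 * n + 3) = 4 * n + 2 := by
    have h1 := vF_spec n (4 * n + 3)
    omega
  have h3 := nF_spec n (4 * n + 2)
  unfold fF
  rw [e]
  omega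

theorem fF_b (n : ℕ) (h : 0 < n) : fF n (4 * n + 2) = 4 * n := by
  have e : vF n (4 * n + 2) = 4 * n + 3 := by
    have h1 := vF_spec n (4 * n + 2)
    omega
  have h3 := nF_spec n (4 * n + 3)
  have h4 := nI_spec (4 * n + 3)
  unfold fF
  rw [e]
  omega

theorem fF_c (n d : ℕ) (h : d + 1 = 4 * n) : fF n d = d + 4 := by
  have e : vF n d = 4 * n + 1 := by
    have h1 := vF_spec n d
    have h2 := vI_spec d
    omega
  have h3 := nF_spec n (4 * n + 1)
  unfold fF
  rw [e]
  omega

theorem fF_d (n d : ℕ) (h : d + 1 < 4 * n) (h' : 2 ≤ d % 4) : fF n d = d + 3 := by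
  have e : vF n d = d + 2 := by
    have h1 := vF_spec n d
    have h2 := vI_spec d
    omega
  have h3 := nF_spec n (d + 2)
  have h4 := nI_spec (d + 2)
  unfold fF
  rw [e]
  omega

theorem fF_e (n d : ℕ) (h : d < 4 * n + 4) (h0 : 0 < d) (h' : d % 4 = 0) : fF n d = d - 1 := by
  have e : vF n d = d - 2 := by
    have h1 := vF_spec n d
    have h2 := vI_spec d
    omega
  have h3 := nF_spec n (d - 2)
  have h4 := nI_spec (d - 2)
  unfold fF
  rw [e]
  omega

theorem fF_f (n : ℕ) (h : 0 < n) : fF n 5 = 1 := by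
  have e : vF n 5 = 3 := by
    have h1 := vF_spec n 5
    have h2 := vI_spec 5
    omega
  have h3 := nF_spec n 3
  have h4 := nI_spec 3
  unfold fF
  rw [e]
  omega

theorem fF_g (n d : ℕ) (h : d < 4 * n + 4) (h0 : 5 < d) (h' : d % 4 = 1) : fF n d = d - 5 := by
  have e : vF n d = d - 2 := by
    have h1 := vF_spec n d
    have h2 := vI_spec d
    omega
  have h3 := nF_spec n (d - 2)
  have h4 := nI_spec (d - 2)
  unfold fF
  rw [e]
  omega

theorem fF_h (n : ℕ) (h : 0 < n) : fF n 0 = 2 := by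
  have e : vF n 0 = 1 := by
    have h1 := vF_spec n 0
    have h2 := vI_spec 0
    omega
  have h3 := nF_spec n 1
  have h4 := nI_spec 1
  unfold fF
  rw [e]
  omega

theorem fF_i (n : ℕ) (h : 0 < n) : fF n 1 = 0 := by
  have e : vF n 1 = 0 := by
    have h1 := vF_spec n 1
    have h2 := vI_spec 1
    omega
  have h3 := nF_spec n 0
  have h4 := nI_spec 0
  unfold fF
  rw [e]
  omega

/-- The orbit of a dart under the face permutation. -/
theorem fF_orb (n d : ℕ) (hn : 1 < n) (h : d < 4 * n + 4) :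
    ∃ a b c, fF n d = a ∧ fF n a = b ∧ fF n b = c ∧ fF n c = d ∧ b ≠ d := by
  by_cases h1 : d = 4 * n + 3
  · subst h1
    exact ⟨4 * n + 2, 4 * n, 4 * n - 1, fF_a n, fF_b n (by omega), fF_e n _ (by omega) (by omega) (by omega),
      by rw [fF_c n _ (by omega)]; omega, by omega⟩
  by_cases h2 : d = 4 * n + 2
  · subst h2
    exact ⟨4 * n, 4 * n - 1, 4 * n + 3, fF_b n (by omega), fF_e n _ (by omega) (by omega) (by omega),
      by rw [fF_c n _ (by omega)]; omega, fF_a n, by omega⟩
  by_cases h3 : d = 4 * n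
  · subst h3
    exact ⟨4 * n - 1, 4 * n + 3, 4 * n + 2, fF_e n _ (by omega) (by omega) (by omega),
      by rw [fF_c n _ (by omega)]; omega, fF_a n, fF_b n (by omega), by omega⟩
  by_cases h4 : d = 4 * n - 1
  · subst h4
    exact ⟨4 * n + 3, 4 * n + 2, 4 * n, by rw [fF_c n _ (by omega)]; omega, fF_a n, fF_b n (by omega),
      fF_e n _ (by omega) (by omega) (by omega), by omega⟩
  by_cases h5 : d = 0
  · subst h5
    exact ⟨2, 5, 1, fF_h n (by omega), fF_d n 2 (by omega) (by omega), fF_f n (by omega), fF_i n (by omega),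
      by omega⟩
  by_cases h6 : d = 1
  · subst h6
    exact ⟨0, 2, 5, fF_i n (by omega), fF_h n (by omega), fF_d n 2 (by omega) (by omega), fF_f n (by omega),
      by omega⟩
  by_cases h7 : d = 2
  · subst h7
    exact ⟨5, 1, 0, fF_d n 2 (by omega) (by omega), fF_f n (by omega), fF_i n (by omega), fF_h n (by omega),
      by omega⟩
  by_cases h8 : d = 5
  · subst h8
    exact ⟨1, 0, 2, fF_f n (by omega), fF_i n (by omega), fF_h n (by omega), fF_d n 2 (by omega) (by omega),
      by omega⟩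
  have h9 : d % 4 = 0 ∨ d % 4 = 1 ∨ d % 4 = 2 ∨ d % 4 = 3 := by omega
  rcases h9 with h9 | h9 | h9 | h9
  · -- `(i+1, 0) → (i, 3) → (i+1, 2) → (i+2, 1)`
    refine ⟨d - 1, d + 2, d + 5, fF_e n _ h (by omega) h9, ?_, ?_, ?_, by omega⟩
    · rw [fF_d n (d - 1) (by omega) (by omega)]; omega
    · rw [fF_d n (d + 2) (by omega) (by omega)]
    · rw [fF_g n (d + 5) (by omega) (by omega) (by omega)]; omega
  · refine ⟨d - 5, d - 6, d - 3, fF_g n _ h (by omega) h9, ?_, ?_, ?_, by omega⟩
    · rw [fF_e n (d - 5) (by omega) (by omega) (by omega)]; omega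
    · rw [fF_d n (d - 6) (by omega) (by omega)]; omega
    · rw [fF_d n (d - 3) (by omega) (by omega)]; omega
  · refine ⟨d + 3, d - 2, d - 3, fF_d n _ (by omega) (by omega), ?_, ?_, ?_, by omega⟩
    · rw [fF_g n (d + 3) (by omega) (by omega) (by omega)]; omega
    · rw [fF_e n (d - 2) (by omega) (by omega) (by omega)]; omega
    · rw [fF_d n (d - 3) (by omega) (by omega)]; omega
  · refine ⟨d + 3, d + 6, d + 1, fF_d n _ (by omega) (by omega), ?_, ?_, ?_, by omega⟩
    · rw [fF_d n (d + 3) (by omega) (by omega)]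
    · rw [fF_g n (d + 6) (by omega) (by omega) (by omega)]; omega
    · rw [fF_e n (d + 1) (by omega) (by omega) (by omega)]; omega

theorem fc_val (n : ℕ) (d : Fin (4 * n + 4)) : ((Mf n).fc d : ℕ) = fF n d := rfl

end Pool.Agent.UQSh
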